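import Mathlib

set_option autoImplicit false

/-!
R-trees for aggregation queries (problem MP_4b5396_lc).

We define R-trees on a family of axis-parallel hypercubes in `ℝ^d`, and the traversal that answers
an aggregation query, together with its cost (the number of nodes visited).  We show that no
constant `C` bounds the cost of all aggregation queries by `C (N/B)^(1-1/d)`, for every `d ≥ 2`;
the bad inputs are rows of pairwise disjoint unit cubes.
-/

namespace Pool.Agent.Results.MP_4b5396_lc.AggregationLowerBound

/-- A closed axis-parallel hypercube in `ℝ^d` (side length `0` is allowed). -/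
structure Cube (d : ℕ) where
  /-- the lower corner -/
  corner : Fin d → ℝ
  /-- the side length -/
  side : ℝ
  side_nonneg : 0 ≤ side

/-- The set of points of a hypercube. -/
def Cube.toSet {d : ℕ} (c : Cube d) : Set (Fin d → ℝ) :=
  Set.Icc c.corner (fun i => c.corner i + c.side)

/-- Rooted trees all of whose leaves are at depth `h`; a leaf stores a finite set of objects (given
by their names in `ι`), an internal node has `n` children. -/
inductive Tree (ι : Type) : ℕ → Type
  | leaf (objs : Finset ι) : Tree ι 0
  | node {h : ℕ} (n : ℕ) (child : Fin n → Tree ι h) : Tree ι (h + 1)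

/-- The objects stored in the leaves of a tree, with multiplicity. -/
def Tree.objects {ι : Type} : {h : ℕ} → Tree ι h → Multiset ι
  | _, .leaf s => s.val
  | _, .node n child => ∑ j : Fin n, (child j).objects

/-- The total weight `W(v)` of the objects in a subtree. -/
noncomputable def Tree.weight {ι : Type} {h : ℕ} (w : ι → ℝ) (T : Tree ι h) : ℝ :=
  (T.objects.map w).sum

/-- The minimal axis-parallel box `R(v)` containing the objects in a subtree. -/
def Tree.bbox {ι : Type} {d h : ℕ} (cube : ι → Cube d) (T : Tree ι h) : Set (Fin d → ℝ) :=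
  ⋂ (a : Fin d → ℝ) (b : Fin d → ℝ) (_ : ∀ o ∈ T.objects, (cube o).toSet ⊆ Set.Icc a b),
    Set.Icc a b

/-- Every leaf of the tree holds between `lo` and `hi` objects and every internal node (the root of
the tree included) has between `lo` and `hi` children. -/
def Tree.SizeOK {ι : Type} (lo hi : ℝ) : {h : ℕ} → Tree ι h → Prop
  | _, .leaf s => lo ≤ (s.card : ℝ) ∧ (s.card : ℝ) ≤ hi
  | _, .node n child => lo ≤ (n : ℝ) ∧ (n : ℝ) ≤ hi ∧ ∀ j, (child j).SizeOK lo hi

/-- The same, but the root is exempted from the lower bound. -/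
def Tree.RootOK {ι : Type} (lo hi : ℝ) : {h : ℕ} → Tree ι h → Prop
  | _, .leaf s => (s.card : ℝ) ≤ hi
  | _, .node n child => (n : ℝ) ≤ hi ∧ ∀ j, (child j).SizeOK lo hi

/-- `T` is an R-tree with block size `B` on the objects with names in the finite type `ι`: every
object is stored exactly once, every leaf holds between `c₁ B` and `c₂ B` objects, every internal
node has between `c₁ B` and `c₂ B` children (the root only has to obey the upper bounds). -/
def IsRTree {ι : Type} [Fintype ι] (c₁ c₂ : ℝ) (B : ℕ) {h : ℕ} (T : Tree ι h) : Prop :=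
  T.objects = (Finset.univ : Finset ι).val ∧ T.RootOK (c₁ * B) (c₂ * B)

open Classical in
/-- The traversal answering the aggregation query with box `Q`, started at the root of the given
(sub)tree; it returns the running sum and the number of nodes visited.  A child `v` with
`R(v) ∩ Q = ∅` is ignored, a child with `R(v) ⊆ Q` contributes `W(v)` and is not entered, every
other child is visited recursively, and at a leaf the objects meeting `Q` are added. -/
noncomputable def Tree.query {ι : Type} {d : ℕ} (cube : ι → Cube d) (w : ι → ℝ)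
    (Q : Set (Fin d → ℝ)) : {h : ℕ} → Tree ι h → ℝ × ℕ
  | _, .leaf s => (∑ o ∈ s with ((cube o).toSet ∩ Q).Nonempty, w o, 1)
  | _, .node n child =>
      (∑ j : Fin n,
          if (child j).bbox cube ∩ Q = ∅ then 0
          else if (child j).bbox cube ⊆ Q then (child j).weight w
          else ((child j).query cube w Q).1,
        1 + ∑ j : Fin n,
          if (child j).bbox cube ∩ Q = ∅ then 0
          else if (child j).bbox cube ⊆ Q then 0
          else ((child j).query cube w Q).2)

/-- The cost of the aggregation query with box `Q`: the number of nodes visited. -/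
noncomputable def queryCost {ι : Type} {d h : ℕ} (cube : ι → Cube d) (w : ι → ℝ)
    (Q : Set (Fin d → ℝ)) (T : Tree ι h) : ℕ := (T.query cube w Q).2

section Aux

variable {ι : Type} {d : ℕ}

lemma cube_subset_bbox {h : ℕ} (cube : ι → Cube d) (T : Tree ι h) {o : ι} (ho : o ∈ T.objects) :
    (cube o).toSet ⊆ T.bbox cube := by
  intro x hx
  simp only [Tree.bbox, Set.mem_iInter]
  intro a b hab
  exact hab o ho hx

/-- Sanity check: the traversal computes the total weight of the objects that meet `Q`. -/
theorem query_fst_eq [DecidableEq ι] (cube : ι → Cube d) (w : ι → ℝ) (Q : Set (Fin d → ℝ))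
    [DecidablePred fun o => ((cube o).toSet ∩ Q).Nonempty] {h : ℕ} (T : Tree ι h) :
    (T.query cube w Q).1 =
      ((T.objects.filter (fun o => ((cube o).toSet ∩ Q).Nonempty)).map w).sum := by
  classical
  induction T with
  | leaf s =>
    simp only [Tree.query, Tree.objects, Finset.sum, Finset.filter_val]
    congr
  | node n child ih =>
    have hfilter : ∀ (s : Finset (Fin n)) (f : Fin n → Multiset ι),
        (((∑ j ∈ s, f j).filter (fun o => ((cube o).toSet ∩ Q).Nonempty)).map w).sum =
          ∑ j ∈ s, (((f j).filter (fun o => ((cube o).toSet ∩ Q).Nonempty)).map w).sum := by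
      intro s f
      induction s using Finset.induction_on with
      | empty => simp
      | insert a s ha ih => rw [Finset.sum_insert ha, Finset.sum_insert ha, Multiset.filter_add,
          Multiset.map_add, Multiset.sum_add, ih]
    simp only [Tree.query, Tree.objects]
    rw [hfilter]
    apply Finset.sum_congr rfl
    intro j _
    split_ifs with h1 h2
    · have : (child j).objects.filter (fun o => ((cube o).toSet ∩ Q).Nonempty) = 0 := by
        rw [Multiset.filter_eq_nil]
        rintro o ho ⟨x, hx1, hx2⟩
        have : x ∈ (child j).bbox cube ∩ Q := ⟨cube_subset_bbox cube _ ho hx1, hx2⟩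
        rw [h1] at this
        exact this
      rw [this]
      simp
    · have : (child j).objects.filter (fun o => ((cube o).toSet ∩ Q).Nonempty) =
          (child j).objects := by
        rw [Multiset.filter_eq_self]
        intro o ho
        refine ⟨(cube o).corner, ?_, h2 (cube_subset_bbox cube _ ho ?_)⟩
        all_goals
          exact ⟨le_refl _, fun i => by
            have := (cube o).side_nonneg
            simp only
            linarith⟩
      rw [this]
      rfl
    · exact ih j

/-- If every nonempty node box crosses the boundary of `Q`, then at least (number of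
objects) / `hi` nodes are visited. -/
lemma objects_card_le (cube : ι → Cube d) (w : ι → ℝ) (Q : Set (Fin d → ℝ)) (lo hi : ℝ)
    (hhi : 0 ≤ hi)
    (hQ : ∀ o : ι, ((cube o).toSet ∩ Q).Nonempty ∧ ¬ (cube o).toSet ⊆ Q) {h : ℕ}
    (T : Tree ι h) (hT : T.SizeOK lo hi) :
    (T.objects.card : ℝ) ≤ hi * (queryCost cube w Q T : ℝ) := by
  classical
  induction T with
  | leaf s =>
    simp only [Tree.SizeOK] at hT
    simp only [Tree.objects, queryCost, Tree.query, Nat.cast_one, mul_one]
    exact hT.2
  | node n child ih =>
    simp only [Tree.SizeOK] at hT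
    simp only [Tree.objects, queryCost, Tree.query]
    rw [Multiset.card_sum]
    push_cast
    rw [mul_add, Finset.mul_sum]
    have : ∑ j : Fin n, ((child j).objects.card : ℝ) ≤
        ∑ j : Fin n, hi * (if (child j).bbox cube ∩ Q = ∅ then 0
          else if (child j).bbox cube ⊆ Q then 0
          else (((child j).query cube w Q).2 : ℝ)) := by
      apply Finset.sum_le_sum
      intro j _
      rcases Multiset.empty_or_exists_mem (child j).objects with h0 | ⟨o, ho⟩
      · rw [h0]
        simp only [Multiset.card_zero, Nat.cast_zero]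
        apply mul_nonneg hhi
        split_ifs
        · exact le_refl _
        · exact le_refl _
        · exact Nat.cast_nonneg _
      · have hsub := cube_subset_bbox cube (child j) ho
        obtain ⟨⟨x, hx1, hx2⟩, h2⟩ := hQ o
        have hne : ¬ ((child j).bbox cube ∩ Q = ∅) := by
          intro hcon
          have : x ∈ (child j).bbox cube ∩ Q := ⟨hsub hx1, hx2⟩
          rw [hcon] at this
          exact this
        have hns : ¬ ((child j).bbox cube ⊆ Q) := fun hcon => h2 (hsub.trans hcon)
        rw [if_neg hne, if_neg hns]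
        exact ih j (hT.2.2 j)
    linarith

lemma objects_card_le_root (cube : ι → Cube d) (w : ι → ℝ) (Q : Set (Fin d → ℝ)) (lo hi : ℝ)
    (hhi : 0 ≤ hi)
    (hQ : ∀ o : ι, ((cube o).toSet ∩ Q).Nonempty ∧ ¬ (cube o).toSet ⊆ Q) {h : ℕ}
    (T : Tree ι h) (hT : T.RootOK lo hi) :
    (T.objects.card : ℝ) ≤ hi * (queryCost cube w Q T : ℝ) := by
  classical
  cases T with
  | leaf s =>
    simp only [Tree.RootOK] at hT
    simp only [Tree.objects, queryCost, Tree.query, Nat.cast_one, mul_one]
    exact hT
  | node n child =>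
    simp only [Tree.RootOK] at hT
    -- compare with the same tree with the lower bound relaxed
    have hrel : ∀ {h : ℕ} (T : Tree ι h), T.SizeOK lo hi → T.SizeOK (min lo 0) hi := by
      intro h T
      induction T with
      | leaf s =>
        intro hs
        exact ⟨(min_le_left _ _).trans hs.1, hs.2⟩
      | node n child ih =>
        intro hs
        exact ⟨(min_le_left _ _).trans hs.1, hs.2.1, fun j => ih j (hs.2.2 j)⟩
    apply objects_card_le cube w Q (min lo 0) hi hhi hQ
    exact ⟨(min_le_right _ _).trans (Nat.cast_nonneg _), hT.1, fun j => hrel _ (hT.2 j)⟩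

/-- The perfect `k`-ary tree. -/
def perfect (k : ℕ) : (h : ℕ) → ((Fin (h + 1) → Fin k) ↪ ι) → Tree ι h
  | 0, f => .leaf (Finset.univ.map f)
  | h + 1, f => .node k (fun j => perfect k h
      ⟨fun v => f (Fin.cons j v), fun v w hvw => by
        have := f.injective hvw
        exact (Fin.cons_inj.mp this).2⟩)

lemma perfect_objects (k : ℕ) : ∀ (h : ℕ) (f : (Fin (h + 1) → Fin k) ↪ ι),
    (perfect k h f).objects = (Finset.univ.map f).val := by
  intro h
  induction h with
  | zero =>
    intro f
    rfl
  | succ h ih =>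
    intro f
    simp only [perfect, Tree.objects, ih, Finset.map_val]
    have h1 : (Finset.univ : Finset (Fin (h + 1 + 1) → Fin k)).val =
        ∑ j : Fin k, (Finset.univ : Finset (Fin (h + 1) → Fin k)).val.map (Fin.cons j) := by
      classical
      ext v
      rw [Multiset.count_eq_one_of_mem (Finset.nodup _) (Finset.mem_univ v), Multiset.count_sum',
        Finset.sum_eq_single (v 0)]
      · have hv : v = Fin.cons (v 0) (Fin.tail v) := (Fin.cons_self_tail v).symm
        have h2 := Multiset.count_map_eq_count' (Fin.cons (α := fun _ => Fin k) (v 0))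
          (Finset.univ : Finset (Fin (h + 1) → Fin k)).val
          (Fin.cons_right_injective (α := fun _ => Fin k) (v 0)) (Fin.tail v)
        rw [Multiset.count_eq_one_of_mem (Finset.nodup _) (Finset.mem_univ _), ← hv] at h2
        exact h2.symm
      · intro j _ hj
        rw [Multiset.count_eq_zero, Multiset.mem_map]
        rintro ⟨w, _, hw⟩
        apply hj
        rw [← hw]
        rfl
      · intro hcon
        exact absurd (Finset.mem_univ _) hcon
    rw [h1]
    have h3 : ∀ s : Finset (Fin k), Multiset.map (⇑f)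
        (∑ j ∈ s, (Finset.univ : Finset (Fin (h + 1) → Fin k)).val.map (Fin.cons j)) =
        ∑ j ∈ s, (Finset.univ : Finset (Fin (h + 1) → Fin k)).val.map (fun v => f (Fin.cons j v)) := by
      intro s
      induction s using Finset.induction_on with
      | empty => simp
      | insert a s ha ih =>
        rw [Finset.sum_insert ha, Finset.sum_insert ha, Multiset.map_add, ih, Multiset.map_map]
        rfl
    exact (h3 Finset.univ).symm

lemma perfect_sizeOK (k : ℕ) (lo hi : ℝ) (hlo : lo ≤ k) (hhi : (k : ℝ) ≤ hi) :
    ∀ (h : ℕ) (f : (Fin (h + 1) → Fin k) ↪ ι), (perfect k h f).SizeOK lo hi := by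
  intro h
  induction h with
  | zero =>
    intro f
    simp only [perfect, Tree.SizeOK, Finset.card_map, Finset.card_univ]
    simp [hlo, hhi]
  | succ h ih =>
    intro f
    exact ⟨hlo, hhi, fun j => ih _⟩

lemma sizeOK_rootOK (lo hi : ℝ) {h : ℕ} (T : Tree ι h) (hT : T.SizeOK lo hi) : T.RootOK lo hi := by
  cases T with
  | leaf s => exact hT.2
  | node n child => exact ⟨hT.2.1, hT.2.2⟩

end Aux

/-- The row of unit cubes `[2k, 2k+1] × [0,1]^(d-1)`. -/
def row (d N : ℕ) (k : Fin N) : Cube d where
  corner := fun i => if i.val = 0 then 2 * (k.val : ℝ) else 0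
  side := 1
  side_nonneg := zero_le_one

lemma row_disjoint (d N : ℕ) (hd : 2 ≤ d) (k l : Fin N) (hkl : k ≠ l) :
    Disjoint (row d N k).toSet (row d N l).toSet := by
  rw [Set.disjoint_left]
  rintro x ⟨hx1, hx2⟩ ⟨hy1, hy2⟩
  have i0 : Fin d := ⟨0, by omega⟩
  have h1 := hx1 ⟨0, by omega⟩
  have h2 := hx2 ⟨0, by omega⟩
  have h3 := hy1 ⟨0, by omega⟩
  have h4 := hy2 ⟨0, by omega⟩
  simp only [row, if_true] at h1 h2 h3 h4
  have h5 : k.val ≠ l.val := fun h => hkl (Fin.ext h)
  rcases lt_or_gt_of_ne h5 with h | h
  · have : (k.val : ℝ) + 1 ≤ l.val := by exact_mod_cast h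
    linarith
  · have : (l.val : ℝ) + 1 ≤ k.val := by exact_mod_cast h
    linarith

/-- For every `d ≥ 2`, all constants `0 < c₁ < c₂` in the `Θ(B)` of the definition of an R-tree,
and every constant `C`: for every sufficiently large block size `B` there are arbitrarily large
`N` and a family `S` of `N` pairwise disjoint unit cubes in `ℝ^d`, with R-trees on `S` existing,
such that for all weights every R-tree on `S` has an aggregation query (with a nonempty box) of cost
more than `C (N/B)^(1-1/d)`. -/
theorem result (d : ℕ) (hd : 2 ≤ d) (c₁ c₂ : ℝ) (hc₁ : 0 < c₁) (hc : c₁ < c₂) (C : ℝ) :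
    ∃ B₀ : ℕ, 1 ≤ B₀ ∧ ∀ B : ℕ, B₀ ≤ B → ∀ N₀ : ℕ, ∃ N : ℕ, N₀ ≤ N ∧ ∃ S : Fin N → Cube d,
      (∀ k, (S k).side = 1) ∧
      (∀ k l, k ≠ l → Disjoint (S k).toSet (S l).toSet) ∧
      (∃ h : ℕ, ∃ T : Tree (Fin N) h, IsRTree c₁ c₂ B T) ∧
      ∀ w : Fin N → ℝ, ∀ h : ℕ, ∀ T : Tree (Fin N) h, IsRTree c₁ c₂ B T →
        ∃ a b : Fin d → ℝ, a ≤ b ∧
          C * ((N : ℝ) / (B : ℝ)) ^ (1 - 1 / (d : ℝ)) < (queryCost S w (Set.Icc a b) T : ℝ) := by
  -- for `B ≥ B₀` there is an integer `k ≥ 2` between `c₁ B` and `c₂ B`
  obtain ⟨B₀, hB₀⟩ := exists_nat_gt (max (1 / (c₂ - c₁)) (2 / c₂ * 2))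
  have hc₂ : 0 < c₂ := hc₁.trans hc
  have hc21 : 0 < c₂ - c₁ := sub_pos.mpr hc
  refine ⟨B₀ + 1, by omega, ?_⟩
  intro B hB N₀
  have hBpos : (0 : ℝ) < B := by
    have : 0 < B := by omega
    exact_mod_cast this
  have hBB : (B₀ : ℝ) + 1 ≤ B := by exact_mod_cast hB
  have hB1 : 1 / (c₂ - c₁) < B := by
    have := le_max_left (1 / (c₂ - c₁)) (2 / c₂ * 2)
    linarith
  have hB2 : 2 / c₂ * 2 < B := by
    have := le_max_right (1 / (c₂ - c₁)) (2 / c₂ * 2)
    linarith
  have h1 : 1 < (c₂ - c₁) * B := by
    rw [div_lt_iff₀ hc21] at hB1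
    linarith
  have h2 : 4 < c₂ * B := by
    have : 2 / c₂ * 2 = 4 / c₂ := by ring
    rw [this, div_lt_iff₀ hc₂] at hB2
    linarith
  set k : ℕ := ⌊c₂ * B⌋₊ with hk
  have hk1 : (k : ℝ) ≤ c₂ * B := Nat.floor_le (by positivity)
  have hk2 : c₂ * B < k + 1 := Nat.lt_floor_add_one _
  have hk3 : c₁ * B ≤ k := by nlinarith
  have hk4 : 2 ≤ k := by
    have : (2 : ℝ) ≤ k := by linarith
    exact_mod_cast this
  -- choose the height
  obtain ⟨n, hn⟩ := exists_nat_gt (max (N₀ : ℝ) (B * (max (c₂ * C) 0) ^ d))
  let N : ℕ := k ^ (n + 1)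
  have hNn : n ≤ N := by
    have h3 : n + 1 < k ^ (n + 1) := Nat.lt_pow_self (by omega)
    show n ≤ k ^ (n + 1)
    omega
  have hNn' : (n : ℝ) ≤ N := by exact_mod_cast hNn
  have hN1 : (N₀ : ℝ) < N := (lt_of_le_of_lt (le_max_left _ _) hn).trans_le hNn'
  have hN2 : B * (max (c₂ * C) 0) ^ d < N := (lt_of_le_of_lt (le_max_right _ _) hn).trans_le hNn'
  refine ⟨N, by exact_mod_cast hN1.le, row d N, fun _ => rfl, row_disjoint d N hd, ?_, ?_⟩
  · -- an R-tree exists
    refine ⟨n, perfect k n finFunctionFinEquiv.toEmbedding, ?_, ?_⟩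
    · rw [perfect_objects, Finset.map_univ_equiv]
    · exact sizeOK_rootOK _ _ _ (perfect_sizeOK k _ _ hk3 hk1 n _)
  · intro w h T hT
    let a : Fin d → ℝ := fun i => if i.val = 0 then -1 else 1 / 2
    let b : Fin d → ℝ := fun i => if i.val = 0 then 2 * (N : ℝ) + 1 else 2
    have hab : a ≤ b := by
      intro i
      simp only [a, b]
      split_ifs
      · have : (0 : ℝ) ≤ N := Nat.cast_nonneg _
        linarith
      · norm_num
    refine ⟨a, b, hab, ?_⟩
    have hQ : ∀ o : Fin N, ((row d N o).toSet ∩ Set.Icc a b).Nonempty ∧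
        ¬ (row d N o).toSet ⊆ Set.Icc a b := by
      intro o
      have ho : (o.val : ℝ) ≤ N := by exact_mod_cast o.2.le
      have ho' : (0 : ℝ) ≤ o.val := Nat.cast_nonneg _
      constructor
      · refine ⟨fun i => if i.val = 0 then 2 * (o.val : ℝ) else 1, ⟨?_, ?_⟩, ⟨?_, ?_⟩⟩
        · intro i
          simp only [row]
          split_ifs
          · exact le_refl _
          · norm_num
        · intro i
          simp only [row]
          split_ifs
          · linarith
          · norm_num
        · intro i
          simp only [a]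
          split_ifs
          · linarith
          · norm_num
        · intro i
          simp only [b]
          split_ifs
          · linarith
          · norm_num
      · intro hsub
        have hmem : (row d N o).corner ∈ (row d N o).toSet :=
          ⟨le_refl _, fun i => by simp [row]⟩
        have h5 := (hsub hmem).1 ⟨1, by omega⟩
        simp [a, row] at h5
        linarith
    have hmain := objects_card_le_root (row d N) w (Set.Icc a b) _ _
      (by positivity) hQ T hT.2
    rw [hT.1] at hmain
    simp only [Finset.card_val, Finset.card_univ, Fintype.card_fin] at hmain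
    -- numerical part
    have hNpos : (0 : ℝ) < N := lt_of_le_of_lt (Nat.cast_nonneg _) hN1
    set x : ℝ := (N : ℝ) / B with hx
    have hxpos : 0 < x := div_pos hNpos hBpos
    have hd0 : (d : ℝ) ≠ 0 := by
      have : d ≠ 0 := by omega
      exact_mod_cast this
    have hxK : (max (c₂ * C) 0) ^ d < x := by
      rw [hx, lt_div_iff₀ hBpos]
      linarith
    have hroot : max (c₂ * C) 0 < x ^ (1 / (d : ℝ)) := by
      have h6 : ((max (c₂ * C) 0) ^ d) ^ (1 / (d : ℝ)) < x ^ (1 / (d : ℝ)) := by
        apply Real.rpow_lt_rpow _ hxK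
        · have : 0 < (d : ℝ) := by
            have : 0 < d := by omega
            exact_mod_cast this
          positivity
        · exact pow_nonneg (le_max_right _ _) _
      rw [one_div, Real.pow_rpow_inv_natCast (le_max_right _ _) (by omega)] at h6
      rw [one_div]
      exact h6
    have hsplit : x ^ (1 - 1 / (d : ℝ)) * x ^ (1 / (d : ℝ)) = x := by
      rw [← Real.rpow_add hxpos]
      simp
    have hpos' : 0 < x ^ (1 - 1 / (d : ℝ)) := Real.rpow_pos_of_pos hxpos _
    have h7 : c₂ * (C * x ^ (1 - 1 / (d : ℝ))) < x := by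
      have h8 : c₂ * C < x ^ (1 / (d : ℝ)) := lt_of_le_of_lt (le_max_left _ _) hroot
      calc c₂ * (C * x ^ (1 - 1 / (d : ℝ))) = x ^ (1 - 1 / (d : ℝ)) * (c₂ * C) := by ring
        _ < x ^ (1 - 1 / (d : ℝ)) * x ^ (1 / (d : ℝ)) := by
            exact mul_lt_mul_of_pos_left h8 hpos'
        _ = x := hsplit
    have h9 : x ≤ c₂ * (queryCost (row d N) w (Set.Icc a b) T : ℝ) := by
      rw [hx, div_le_iff₀ hBpos]
      linarith
    have h10 : c₂ * (C * x ^ (1 - 1 / (d : ℝ))) <
        c₂ * (queryCost (row d N) w (Set.Icc a b) T : ℝ) := lt_of_lt_of_le h7 h9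
    exact lt_of_mul_lt_mul_left h10 hc₂.le

end Pool.Agent.Results.MP_4b5396_lc.AggregationLowerBound
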